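import Pool.Agent.KDT.StmtsK

/-!
# Squad KDT, row INA
-/

set_option autoImplicit false

open Polynomial

namespace Pool.Agent.KDT.H38

/-- The homomorphism `s ↦ s`, `p ↦ s ^ 2 / 4`. -/
private noncomputable def inaPsi (K : Type) [Field K] : K[X][X] →+* K[X] :=
  eval₂RingHom (compRingHom (C (4⁻¹ : K) * X ^ 2)) X

private theorem ina_monic (K : Type) [Field K] : (X ^ 2 - C (C 4 * X) : K[X][X]).Monic :=
  monic_X_pow_sub_C _ (by norm_num)

private theorem ina_natDegree (K : Type) [Field K] :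
    (X ^ 2 - C (C 4 * X) : K[X][X]).natDegree = 2 := natDegree_X_pow_sub_C

private theorem ina_psi_zero {K : Type} [Field K] (h2 : (2 : K) ≠ 0) :
    inaPsi K (X ^ 2 - C (C 4 * X)) = 0 := by
  have h4 : (4 : K) ≠ 0 := by
    have : (4 : K) = 2 * 2 := by norm_num
    rw [this]
    exact mul_ne_zero h2 h2
  unfold inaPsi
  rw [coe_eval₂RingHom, eval₂_sub, eval₂_X_pow, eval₂_C, coe_compRingHom_apply, mul_comp, C_comp,
    X_comp, ← mul_assoc, ← C_mul, mul_inv_cancel₀ h4, C_1, one_mul, sub_self]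

private theorem ina_comp_ne {K : Type} [Field K] (h2 : (2 : K) ≠ 0) {a : K[X]} (ha : a ≠ 0) :
    a.comp (C (4⁻¹ : K) * X ^ 2) ≠ 0 ∧
      (a.comp (C (4⁻¹ : K) * X ^ 2)).natDegree = a.natDegree * 2 := by
  have h4 : (4 : K) ≠ 0 := by
    have : (4 : K) = 2 * 2 := by norm_num
    rw [this]
    exact mul_ne_zero h2 h2
  have h5 : (C (4⁻¹ : K) * X ^ 2 : K[X]).natDegree = 2 := natDegree_C_mul_X_pow 2 _ (inv_ne_zero h4)
  constructor
  · intro h
    rcases comp_eq_zero_iff.1 h with h6 | ⟨_, h6⟩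
    · exact ha h6
    · rw [h6, natDegree_C] at h5
      exact absurd h5 (by norm_num)
  · rw [natDegree_comp, h5]

private theorem ina_ker {K : Type} [Field K] (h2 : (2 : K) ≠ 0) (g : K[X][X]) :
    inaPsi K g = 0 ↔ (X ^ 2 - C (C 4 * X) : K[X][X]) ∣ g := by
  constructor
  · intro hg
    set q : K[X][X] := X ^ 2 - C (C 4 * X) with hq
    have hqm : q.Monic := ina_monic K
    have h1 := modByMonic_add_div g q
    have h3 : inaPsi K (g %ₘ q) = 0 := by
      rw [← h1, map_add, map_mul, ina_psi_zero h2, zero_mul, add_zero] at hg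
      exact hg
    have h4 : (g %ₘ q).degree ≤ 1 := by
      have h5 := degree_modByMonic_lt g hqm
      rw [degree_eq_natDegree hqm.ne_zero, ina_natDegree K] at h5
      refine (degree_le_iff_coeff_zero _ _).2 fun n hn => coeff_eq_zero_of_degree_lt
        (lt_of_lt_of_le h5 (Nat.cast_le.2 ?_))
      have h6 : ((1 : ℕ) : WithBot ℕ) < (n : WithBot ℕ) := by exact_mod_cast hn
      have h7 := Nat.cast_lt.1 h6
      omega
    have h5 := eq_X_add_C_of_degree_le_one h4
    set a := (g %ₘ q).coeff 1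
    set b := (g %ₘ q).coeff 0
    have h6 : a.comp (C (4⁻¹ : K) * X ^ 2) * X + b.comp (C (4⁻¹ : K) * X ^ 2) = 0 := by
      rw [h5] at h3
      unfold inaPsi at h3
      rw [coe_eval₂RingHom, eval₂_add, eval₂_mul, eval₂_C, eval₂_C, eval₂_X,
        coe_compRingHom_apply, coe_compRingHom_apply] at h3
      exact h3
    have ha : a = 0 := by
      by_contra ha
      obtain ⟨h7, h8⟩ := ina_comp_ne h2 ha
      have h9 : b.comp (C (4⁻¹ : K) * X ^ 2) = -(a.comp (C (4⁻¹ : K) * X ^ 2) * X) :=
        eq_neg_of_add_eq_zero_right h6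
      have h10 : b ≠ 0 := by
        intro hb
        rw [hb, zero_comp] at h9
        exact mul_ne_zero h7 X_ne_zero (neg_eq_zero.1 h9.symm)
      obtain ⟨_, h12⟩ := ina_comp_ne h2 h10
      rw [h9, natDegree_neg, natDegree_mul h7 X_ne_zero, natDegree_X, h8] at h12
      omega
    have hb : b = 0 := by
      by_contra hb
      rw [ha, zero_comp, zero_mul, zero_add] at h6
      exact (ina_comp_ne h2 hb).1 h6
    rw [ha, hb, C_0, zero_mul, zero_add] at h5
    rw [h5, zero_add] at h1
    exact ⟨_, h1.symm⟩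
  · rintro ⟨c, rfl⟩
    rw [map_mul, ina_psi_zero h2, zero_mul]

/-- Row INA. -/
theorem ina : InaStatement := by
  intro K _ K₁ K₀ F G m h2 hK₁ hF
  set q : K[X][X] := X ^ 2 - C (C 4 * X) with hq
  have hqm : q.Monic := ina_monic K
  have hq0 : q ≠ 0 := hqm.ne_zero
  have hCq : (C q : K[X][X][X]) ≠ 0 := C_ne_zero.2 hq0
  set κ : K[X][X][X] := C q * X ^ 2 + C K₁ * X + C K₀ with hκ
  have hκ1 : κ.coeff 1 = K₁ := by
    rw [hκ]
    simp [coeff_C]
  have hΨ : Polynomial.map (inaPsi K) κ ≠ 0 := by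
    intro h
    have h1 := congrArg (fun t => t.coeff 1) h
    simp only [coeff_map, coeff_zero] at h1
    rw [hκ1, ina_ker h2] at h1
    exact hK₁ h1
  have key : ∀ (m : ℕ) (G : K[X][X][X]), C (q ^ m) * F = κ * G → ∃ G', F = κ * G' := by
    intro m
    induction m with
    | zero =>
      intro G h
      rw [pow_zero, C_1, one_mul] at h
      exact ⟨G, h⟩
    | succ m ih =>
      intro G h
      have h1 := congrArg (Polynomial.map (inaPsi K)) h
      rw [Polynomial.map_mul, Polynomial.map_mul, map_C, map_pow, ina_psi_zero h2,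
        zero_pow (Nat.succ_ne_zero m), C_0, zero_mul] at h1
      have h3 : Polynomial.map (inaPsi K) G = 0 := by
        rcases mul_eq_zero.1 h1.symm with h4 | h4
        · exact absurd h4 hΨ
        · exact h4
      have h4 : C q ∣ G := by
        rw [C_dvd_iff_dvd_coeff]
        intro i
        rw [hq, ← ina_ker h2, ← coeff_map, h3, coeff_zero]
      obtain ⟨G₁, rfl⟩ := h4
      refine ih G₁ (mul_left_cancel₀ hCq ?_)
      calc C q * (C (q ^ m) * F) = C (q ^ (m + 1)) * F := by
            rw [← mul_assoc, ← C_mul, ← pow_succ']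
        _ = κ * (C q * G₁) := h
        _ = C q * (κ * G₁) := by ring
  intro h
  obtain ⟨G', hG'⟩ := key m G h
  by_cases hG0 : G' = 0
  · rw [hG', hG0, mul_zero]
  · exfalso
    have h1 : κ.natDegree = 2 := natDegree_quadratic hq0
    have h3 : κ.leadingCoeff = q := leadingCoeff_quadratic hq0
    have hκ0 : κ ≠ 0 := by
      intro h0
      rw [h0, leadingCoeff_zero] at h3
      exact hq0 h3.symm
    have h4 : F.natDegree = 2 + G'.natDegree := by
      rw [hG', natDegree_mul hκ0 hG0, h1]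
    have h5 : F.coeff F.natDegree = q * G'.leadingCoeff := by
      rw [coeff_natDegree, hG', leadingCoeff_mul, h3]
    have h6 := hF F.natDegree (by omega)
    rw [h5, natDegree_mul hq0 (leadingCoeff_ne_zero.2 hG0), ina_natDegree K] at h6
    omega

end Pool.Agent.KDT.H38
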